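import Mathlib
set_option autoImplicit false

namespace Pool.Agent.H.MP_1a7c10_an

universe u

/-- `N` is a complete `p`-norm on the `𝕜`-vector space `X`. -/
structure IsPBanach (𝕜 : Type) [RCLike 𝕜] (p : ℝ) (X : Type u) [AddCommGroup X] [Module 𝕜 X]
    (N : X → ℝ) : Prop where
  nonneg : ∀ x, 0 ≤ N x
  eq_zero : ∀ x, N x = 0 → x = 0
  smul : ∀ (t : 𝕜) (x : X), N (t • x) = ‖t‖ * N x
  tri : ∀ x y, N (x + y) ^ p ≤ N x ^ p + N y ^ p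
  complete : ∀ w : ℕ → X, (∀ ε > 0, ∃ k, ∀ m ≥ k, ∀ n ≥ k, N (w m - w n) < ε) →
    ∃ x, ∀ ε > 0, ∃ k, ∀ n ≥ k, N (w n - x) < ε

/-- The closed linear span of `δ '' K` for the quasi-norm `N`. -/
def cspan (𝕜 : Type) [RCLike 𝕜] {M X : Type u} [AddCommGroup X] [Module 𝕜 X] (N : X → ℝ)
    (δ : M → X) (K : Set M) : Set X :=
  {x | ∀ ε > 0, ∃ y ∈ Submodule.span 𝕜 (δ '' K), N (x - y) < ε}

/-- `(X, N, δ)` is the Lipschitz free `p`-space over the pointed metric space `(M, o)`. -/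
structure IsFree (𝕜 : Type) [RCLike 𝕜] (p : ℝ) {M : Type u} [MetricSpace M] (o : M) (X : Type u)
    [AddCommGroup X] [Module 𝕜 X] (N : X → ℝ) (δ : M → X) : Prop where
  banach : IsPBanach 𝕜 p X N
  base : δ o = 0
  isom : ∀ x y, N (δ x - δ y) = dist x y
  dense : ∀ x, x ∈ cspan 𝕜 N δ Set.univ
  lift : ∀ (Y : Type u) [AddCommGroup Y] [Module 𝕜 Y] (NY : Y → ℝ), IsPBanach 𝕜 p Y NY →
    ∀ (f : M → Y) (L : ℝ), 0 ≤ L → f o = 0 → (∀ x y, NY (f x - f y) ≤ L * dist x y) →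
    ∃ T : X →ₗ[𝕜] Y, (∀ x, T (δ x) = f x) ∧ ∀ x, NY (T x) ≤ L * N x

/-- The sequence `x` is equivalent to the canonical basis of `ℓ_p`. -/
def EquivLp (𝕜 : Type) [RCLike 𝕜] (p : ℝ) {X : Type u} [AddCommGroup X] [Module 𝕜 X] (N : X → ℝ)
    (x : ℕ → X) : Prop :=
  ∃ c C : ℝ, 0 < c ∧ c ≤ C ∧ ∀ (s : Finset ℕ) (a : ℕ → 𝕜),
    c * (∑ n ∈ s, ‖a n‖ ^ p) ^ (1 / p) ≤ N (∑ n ∈ s, a n • x n) ∧
    N (∑ n ∈ s, a n • x n) ≤ C * (∑ n ∈ s, ‖a n‖ ^ p) ^ (1 / p)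

/-- The Schur `p`-property: every infinite, bounded, uniformly separated set contains a sequence
equivalent to the canonical basis of `ℓ_p`. -/
def SchurP (𝕜 : Type) [RCLike 𝕜] (p : ℝ) {X : Type u} [AddCommGroup X] [Module 𝕜 X]
    (N : X → ℝ) : Prop :=
  ∀ A : Set X, A.Infinite → (∃ B : ℝ, ∀ x ∈ A, N x ≤ B) →
    (∃ s > 0, ∀ x ∈ A, ∀ y ∈ A, x ≠ y → s ≤ N (x - y)) →
    ∃ x : ℕ → X, (∀ n, x n ∈ A) ∧ EquivLp 𝕜 p N x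

end Pool.Agent.H.MP_1a7c10_an
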