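import Pool.Agent.H.MP_1a7c10_an.T
import Pool.Agent.H.MP_259edd_an.A
set_option autoImplicit false

namespace Pool.Agent.H.MP_1a7c10_an
open Set Metric Filter Topology Finsupp
open Pool.Agent.H.MP_259edd_an (clamp clamp_lip clamp_nonneg clamp_le_one clamp_abs clamp_one
  clamp_zero Good)

universe u

structure SN (𝕜 : Type) [RCLike 𝕜] (p : ℝ) {E : Type*} [AddCommGroup E] [Module 𝕜 E]
    (q : E → ℝ) : Prop where
  hp : 0 < p
  add : ∀ c c', q (c + c') ≤ q c + q c'
  smul : ∀ (t : 𝕜) c, q (t • c) = ‖t‖ ^ p * q c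

section
variable {𝕜 : Type} [RCLike 𝕜] {p : ℝ} {E : Type*} [AddCommGroup E] [Module 𝕜 E] {q : E → ℝ}

lemma SN.zero (h : SN 𝕜 p q) : q 0 = 0 := by
  simpa [Real.zero_rpow h.hp.ne'] using h.smul 0 0

lemma SN.neg (h : SN 𝕜 p q) (c : E) : q (-c) = q c := by simpa using h.smul (-1) c

lemma SN.nonneg (h : SN 𝕜 p q) (c : E) : 0 ≤ q c := by
  have := h.add c (-c)
  rw [add_neg_cancel, h.zero, h.neg] at this
  linarith

lemma SN.sub (h : SN 𝕜 p q) (c c' : E) : q (c - c') ≤ q c + q c' := by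
  rw [sub_eq_add_neg, ← h.neg c']; exact h.add _ _

lemma SN.sub_rev (h : SN 𝕜 p q) (c c' : E) : q (c - c') = q (c' - c) := by
  rw [← h.neg, neg_sub]

lemma SN.tri (h : SN 𝕜 p q) (a b c : E) : q (a - c) ≤ q (a - b) + q (b - c) := by
  have := h.add (a - b) (b - c)
  rwa [sub_add_sub_cancel] at this

lemma SN.le_add_sub (h : SN 𝕜 p q) (a b : E) : q a ≤ q b + q (a - b) := by
  have := h.add b (a - b)
  rwa [add_sub_cancel] at this

lemma SN.sum (h : SN 𝕜 p q) {ι : Type*} (s : Finset ι) (f : ι → E) :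
    q (∑ i ∈ s, f i) ≤ ∑ i ∈ s, q (f i) := by
  classical
  induction s using Finset.induction_on with
  | empty => simp [h.zero]
  | insert a s ha ih =>
    rw [Finset.sum_insert ha, Finset.sum_insert ha]
    exact (h.add _ _).trans (by linarith)

lemma SN.comp (h : SN 𝕜 p q) {E' : Type*} [AddCommGroup E'] [Module 𝕜 E'] (T : E' →ₗ[𝕜] E) :
    SN 𝕜 p (fun c => q (T c)) :=
  ⟨h.hp, fun c c' => by rw [map_add]; exact h.add _ _, fun t c => by rw [map_smul, h.smul]⟩

lemma SN.finsum (hp : 0 < p) {ι : Type*} (s : Finset ι) {q : ι → E → ℝ} (h : ∀ i, SN 𝕜 p (q i)) :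
    SN 𝕜 p (fun c => ∑ i ∈ s, q i c) :=
  ⟨hp, fun c c' => by
    rw [← Finset.sum_add_distrib]; exact Finset.sum_le_sum (fun i _ => (h i).add _ _),
    fun t c => by rw [Finset.mul_sum]; exact Finset.sum_congr rfl (fun i _ => (h i).smul _ _)⟩

lemma SN.diff_le (h : SN 𝕜 p q) (a b : 𝕜) (u w : E) :
    q (a • u - b • w) ≤ ‖a - b‖ ^ p * q u + ‖b‖ ^ p * q (u - w) := by
  have e : a • u - b • w = (a - b) • u + b • (u - w) := by
    rw [sub_smul, smul_sub]; abel
  rw [e, ← h.smul, ← h.smul]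
  exact h.add _ _

lemma rosenthal {η : ℝ} (hη : 0 < η) (j : ℕ) : ∀ ν : ℕ → ℕ → ℝ, (∀ m n, 0 ≤ ν m n) →
    (∀ m (F : Finset ℕ), ∑ n ∈ F, ν m n ≤ j * η) →
    ∃ φ : ℕ → ℕ, Function.Injective φ ∧
      ∀ m (F : Finset ℕ), m ∉ F → ∑ n ∈ F, ν (φ m) (φ n) ≤ η := by
  classical
  induction j with
  | zero =>
    intro ν _ h
    exact ⟨id, Function.injective_id, fun m F _ => (h m F).trans (by simpa using hη.le)⟩
  | succ j ih =>
    intro ν h0 h
    by_cases hc : ∀ k, ∃ i, ∀ F : Finset ℕ, (∀ n ∈ F, (Nat.unpair n).1 ≠ k) →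
        ∑ n ∈ F, ν (Nat.pair k i) n ≤ η
    · choose i hi using hc
      have hinj : Function.Injective (fun k => Nat.pair k (i k)) := fun a b hab =>
        (Nat.pair_eq_pair.mp hab).1
      refine ⟨fun k => Nat.pair k (i k), hinj, fun m F hm => ?_⟩
      have := hi m (F.image (fun k => Nat.pair k (i k))) (by
        intro n hn
        obtain ⟨k, hk, rfl⟩ := Finset.mem_image.mp hn
        rw [Nat.unpair_pair]
        rintro rfl
        exact hm hk)
      rwa [Finset.sum_image (fun a _ b _ hab => hinj hab)] at this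
    · push Not at hc
      obtain ⟨k, hk⟩ := hc
      have hinj : Function.Injective (fun i => Nat.pair k i) := fun a b hab =>
        (Nat.pair_eq_pair.mp hab).2
      obtain ⟨φ, hφ, hF⟩ := ih (fun i i' => ν (Nat.pair k i) (Nat.pair k i'))
        (fun _ _ => h0 _ _) (fun m F => by
          obtain ⟨G, hG, hG'⟩ := hk m
          have hd : Disjoint G (F.image (fun i => Nat.pair k i)) := by
            rw [Finset.disjoint_left]
            intro n hn hn'
            obtain ⟨i, _, rfl⟩ := Finset.mem_image.mp hn'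
            exact hG _ hn (by rw [Nat.unpair_pair])
          have := h (Nat.pair k m) (G ∪ F.image (fun i => Nat.pair k i))
          rw [Finset.sum_union hd, Finset.sum_image (fun a _ b _ hab => hinj hab)] at this
          push_cast at this
          linarith)
      exact ⟨fun i => Nat.pair k (φ i), hinj.comp hφ, hF⟩

def HasLp (𝕜 : Type) [RCLike 𝕜] (p : ℝ) {E : Type*} [AddCommGroup E] [Module 𝕜 E] (N : E → ℝ)
    (c : ℕ → E) : Prop :=
  ∃ κ > 0, ∀ n1 : ℕ, ∃ φ : ℕ → ℕ, (∀ n, n1 ≤ φ n) ∧ ∀ (F : Finset ℕ) (a : ℕ → 𝕜),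
    κ * ∑ n ∈ F, ‖a n‖ ^ p ≤ N (∑ n ∈ F, a n • c (φ n))

lemma ellp0 {N : E → ℝ} {q : ℕ → E → ℝ} (hq : ∀ n, SN 𝕜 p (q n)) {C B s : ℝ} (hC : 0 < C)
    (hs : 0 < s) (hsum : ∀ (F : Finset ℕ) c, ∑ n ∈ F, q n c ≤ C * N c) (c : ℕ → E)
    (hB : ∀ n, N (c n) ≤ B) (hl : ∀ n, s ≤ q n (c n)) :
    ∃ φ : ℕ → ℕ, ∀ (F : Finset ℕ) (a : ℕ → 𝕜),
      (s / 2 / C) * ∑ n ∈ F, ‖a n‖ ^ p ≤ N (∑ n ∈ F, a n • c (φ n)) := by
  classical
  obtain ⟨j, hj⟩ := exists_nat_ge (C * B / (s / 2))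
  rw [div_le_iff₀ (by positivity)] at hj
  obtain ⟨φ, hφ, hF⟩ := rosenthal (η := s / 2) (by positivity) j (fun m n => q n (c m))
    (fun m n => (hq n).nonneg _) (fun m F => (hsum F _).trans
      ((mul_le_mul_of_nonneg_left (hB m) hC.le).trans hj))
  refine ⟨φ, fun F a => ?_⟩
  set v := ∑ n ∈ F, a n • c (φ n) with hv
  have h1 := hsum (F.image φ) v
  rw [Finset.sum_image (fun a _ b _ hab => hφ hab)] at h1
  have h2 : ∀ n ∈ F, ‖a n‖ ^ p * s - ∑ m ∈ F.erase n, ‖a m‖ ^ p * q (φ n) (c (φ m))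
      ≤ q (φ n) v := by
    intro n hn
    have e : a n • c (φ n) = v - ∑ m ∈ F.erase n, a m • c (φ m) := by
      rw [hv, ← Finset.add_sum_erase F _ hn]; abel
    have a1 := (hq (φ n)).sub v (∑ m ∈ F.erase n, a m • c (φ m))
    rw [← e, (hq _).smul] at a1
    have a2 := (hq (φ n)).sum (F.erase n) (fun m => a m • c (φ m))
    simp only [(hq _).smul] at a2
    have a3 := mul_le_mul_of_nonneg_left (hl (φ n)) (by positivity : 0 ≤ ‖a n‖ ^ p)
    linarith
  have h3 := Finset.sum_le_sum h2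
  rw [Finset.sum_sub_distrib] at h3
  have h4 : ∑ n ∈ F, ∑ m ∈ F.erase n, ‖a m‖ ^ p * q (φ n) (c (φ m))
      = ∑ m ∈ F, ∑ n ∈ F.erase m, ‖a m‖ ^ p * q (φ n) (c (φ m)) := by
    apply Finset.sum_comm'
    intro x y
    simp only [Finset.mem_erase]
    tauto
  have h5 : ∑ m ∈ F, ∑ n ∈ F.erase m, ‖a m‖ ^ p * q (φ n) (c (φ m))
      ≤ ∑ m ∈ F, ‖a m‖ ^ p * (s / 2) := by
    refine Finset.sum_le_sum (fun m _ => ?_)
    rw [← Finset.mul_sum]
    exact mul_le_mul_of_nonneg_left (hF m _ (Finset.notMem_erase m F)) (by positivity)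
  rw [← Finset.sum_mul] at h3 h5
  rw [div_mul_eq_mul_div, div_le_iff₀ hC]
  nlinarith

lemma ellp {N : E → ℝ} {q : ℕ → E → ℝ} (hq : ∀ n, SN 𝕜 p (q n)) {C B s : ℝ} (hC : 0 < C)
    (hs : 0 < s) (hsum : ∀ (F : Finset ℕ) c, ∑ n ∈ F, q n c ≤ C * N c) (c : ℕ → E)
    (hB : ∀ n, N (c n) ≤ B) (hl : ∀ n, s ≤ q n (c n)) : HasLp 𝕜 p N c := by
  refine ⟨s / 2 / C, by positivity, fun n1 => ?_⟩
  obtain ⟨φ, hφ⟩ := ellp0 (q := fun n => q (n + n1)) (N := N) (fun n => hq _) hC hs
    (fun F v => by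
      have := hsum (F.image (· + n1)) v
      rwa [Finset.sum_image (fun a _ b _ hab => by simpa using hab)] at this)
    (fun n => c (n + n1)) (fun n => hB _) (fun n => hl _)
  exact ⟨fun n => φ n + n1, fun n => Nat.le_add_left _ _, hφ⟩

end

variable {𝕜 : Type} [RCLike 𝕜] {p : ℝ} {M : Type u} [MetricSpace M] {o : M}

structure Fr (𝕜 : Type) [RCLike 𝕜] (p : ℝ) {M : Type u} [MetricSpace M] (o : M)
    (nr : (M →₀ 𝕜) → ℝ) : Prop where
  sn : SN 𝕜 p nr
  base : nr (single o 1) = 0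
  iso : ∀ x y, nr (single x 1 - single y 1) ≤ dist x y ^ p
  max : ∀ (q : (M →₀ 𝕜) → ℝ) (C : ℝ), 0 ≤ C → SN 𝕜 p q → q (single o 1) = 0 →
    (∀ x y, q (single x 1 - single y 1) ≤ C * dist x y ^ p) → ∀ c, q c ≤ C * nr c

def Sq (𝕜 : Type) [RCLike 𝕜] (M : Type u) : Type u := M →₀ 𝕜

noncomputable instance : AddCommGroup (Sq 𝕜 M) := inferInstanceAs (AddCommGroup (M →₀ 𝕜))
noncomputable instance : Module 𝕜 (Sq 𝕜 M) := inferInstanceAs (Module 𝕜 (M →₀ 𝕜))

lemma CtxK.fr {X : Type u} [NormedAddCommGroup X] [Module 𝕜 X] {δ : M → X} (c : CtxK 𝕜 p o δ) :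
    Fr 𝕜 p o (fun v => ‖linearCombination 𝕜 δ v‖) where
  sn := ⟨c.hp, fun a b => by rw [map_add]; exact norm_add_le _ _,
    fun t a => by rw [map_smul, c.hom]⟩
  base := by simp [c.h0]
  iso x y := by simp [c.iso]
  max q C hC hq h0 hl v := by
    letI : SeminormedAddCommGroup (Sq 𝕜 M) := AddGroupSeminorm.toSeminormedAddCommGroup
      { toFun := q, map_zero' := hq.zero, add_le' := hq.add, neg' := hq.neg }
    have hn : ∀ a : Sq 𝕜 M, ‖a‖ = q a := fun _ => rfl
    haveI : UniformContinuousConstSMul 𝕜 (Sq 𝕜 M) := ⟨fun t =>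
      AddMonoidHomClass.uniformContinuous_of_bound (DistribSMul.toAddMonoidHom (Sq 𝕜 M) t)
        (‖t‖ ^ p) (fun a => (hq.smul t a).le)⟩
    let ι : (M →₀ 𝕜) → UniformSpace.Completion (Sq 𝕜 M) := fun a =>
      UniformSpace.Completion.coe' (α := Sq 𝕜 M) a
    have hι : ∀ a, ‖ι a‖ = q a := fun a => UniformSpace.Completion.norm_coe (E := Sq 𝕜 M) a
    have ιadd : ∀ a b, ι (a + b) = ι a + ι b := fun a b =>
      UniformSpace.Completion.coe_add (α := Sq 𝕜 M) a b
    have ιsub : ∀ a b, ι (a - b) = ι a - ι b := fun a b =>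
      UniformSpace.Completion.coe_sub (α := Sq 𝕜 M) a b
    have ιsmul : ∀ (t : 𝕜) a, ι (t • a) = t • ι a := fun t a =>
      UniformSpace.Completion.coe_smul (X := Sq 𝕜 M) t a
    obtain ⟨T, hT, hb⟩ := c.univ (UniformSpace.Completion (Sq 𝕜 M)) (fun t y => by
      refine UniformSpace.Completion.induction_on y (isClosed_eq
        (continuous_norm.comp (continuous_const_smul t)) (continuous_const.mul continuous_norm)) ?_
      intro a
      rw [← UniformSpace.Completion.coe_smul, UniformSpace.Completion.norm_coe,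
        UniformSpace.Completion.norm_coe]
      exact hq.smul t a) (fun x => ι (single x 1)) C hC
      (by rw [← norm_eq_zero, hι, h0]) (fun x y => by rw [← ιsub, hι]; exact hl x y)
    have e : T (linearCombination 𝕜 δ v) = ι v := by
      induction v using Finsupp.induction_linear with
      | zero => rw [map_zero, map_zero]; exact (UniformSpace.Completion.coe_zero).symm
      | add a b ha hb => rw [map_add, map_add, ha, hb, ιadd]
      | single x t =>
        rw [linearCombination_single, map_smul, hT, ← ιsmul, smul_single, smul_eq_mul, mul_one]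
    rw [← hι, ← e]
    exact hb _

noncomputable def W (𝕜 : Type) [RCLike 𝕜] (h : M → ℝ) : (M →₀ 𝕜) →ₗ[𝕜] (M →₀ 𝕜) :=
  linearCombination 𝕜 (fun x => ((h x : ℝ) : 𝕜) • single x 1)

omit [MetricSpace M] in
lemma W_single (h : M → ℝ) (x : M) : W 𝕜 h (single x 1) = ((h x : ℝ) : 𝕜) • single x 1 := by
  simp [W]

omit [MetricSpace M] in
lemma W_apply (h : M → ℝ) (c : M →₀ 𝕜) (x : M) : W 𝕜 h c x = (h x : 𝕜) * c x := by
  classical
  induction c using Finsupp.induction_linear with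
  | zero => simp
  | add a b ha hb => rw [map_add, Finsupp.add_apply, ha, hb, Finsupp.add_apply, mul_add]
  | single y t =>
    simp only [W, linearCombination_single, smul_single, smul_eq_mul, mul_one, single_apply]
    split_ifs with h'
    · rw [h', mul_comm]
    · simp

omit [MetricSpace M] in
lemma W_congr {h g : M → ℝ} (c : M →₀ 𝕜) (e : ∀ x ∈ c.support, h x = g x) :
    W 𝕜 h c = W 𝕜 g c := by
  ext x
  rw [W_apply, W_apply]
  by_cases hx : x ∈ c.support
  · rw [e x hx]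
  · rw [notMem_support_iff.mp hx, mul_zero, mul_zero]

omit [MetricSpace M] in
lemma W_sub (h g : M → ℝ) (c : M →₀ 𝕜) :
    W 𝕜 (fun x => h x - g x) c = W 𝕜 h c - W 𝕜 g c := by
  ext x; simp only [W_apply, Finsupp.sub_apply]; push_cast; ring

omit [MetricSpace M] in
lemma W_one {h : M → ℝ} (c : M →₀ 𝕜) (e : ∀ x ∈ c.support, h x = 1) : W 𝕜 h c = c := by
  rw [W_congr c (g := fun _ => 1) e]
  ext x; simp [W_apply]

variable {nr : (M →₀ 𝕜) → ℝ}

lemma Fr.single_le (H : Fr 𝕜 p o nr) (x : M) : nr (single x 1) ≤ dist x o ^ p := by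
  have := H.sn.le_add_sub (single x 1) (single o 1)
  have := H.iso x o
  rw [H.base] at *
  linarith

lemma Fr.W_base (H : Fr 𝕜 p o nr) (h : M → ℝ) : nr (W 𝕜 h (single o 1)) = 0 := by
  rw [W_single, H.sn.smul, H.base, mul_zero]

lemma Fr.atom_le (H : Fr 𝕜 p o nr) {h : M → ℝ} {K B R : ℝ} (G : Good o h K B R) (x y : M) :
    nr (W 𝕜 h (single x 1 - single y 1)) ≤ ((K * R) ^ p + B ^ p) * dist x y ^ p := by
  have hp := H.sn.hp
  have hKR : 0 ≤ K * R := mul_nonneg G.hK G.hR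
  have hB := G.hB
  have key : ∀ x y, dist x o ≤ R →
      nr (W 𝕜 h (single x 1 - single y 1)) ≤ ((K * R) ^ p + B ^ p) * dist x y ^ p := by
    intro x y hx
    rw [map_sub, W_single, W_single]
    refine (H.sn.diff_le _ _ _ _).trans ?_
    rw [← RCLike.ofReal_sub, RCLike.norm_ofReal, RCLike.norm_ofReal]
    have h1 : |h x - h y| ^ p * nr (single x 1) ≤ (K * dist x y) ^ p * R ^ p :=
      mul_le_mul (Real.rpow_le_rpow (abs_nonneg _) (G.lip x y) hp.le)
        ((H.single_le x).trans (Real.rpow_le_rpow dist_nonneg hx hp.le)) (H.sn.nonneg _)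
        (Real.rpow_nonneg (mul_nonneg G.hK dist_nonneg) _)
    have h2 : |h y| ^ p * nr (single x 1 - single y 1) ≤ B ^ p * dist x y ^ p :=
      mul_le_mul (Real.rpow_le_rpow (abs_nonneg _) (G.bd y) hp.le) (H.iso x y) (H.sn.nonneg _)
        (Real.rpow_nonneg hB _)
    have h3 : (K * dist x y) ^ p * R ^ p = (K * R) ^ p * dist x y ^ p := by
      rw [Real.mul_rpow G.hK dist_nonneg, Real.mul_rpow G.hK G.hR]; ring
    nlinarith
  by_cases hx : dist x o ≤ R
  · exact key x y hx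
  by_cases hy : dist y o ≤ R
  · rw [← neg_sub, map_neg, H.sn.neg, dist_comm]; exact key y x hy
  · rw [map_sub, W_single, W_single, G.supp x (not_le.mp hx), G.supp y (not_le.mp hy)]
    simp only [RCLike.ofReal_zero, zero_smul, sub_self, H.sn.zero]
    positivity

lemma Fr.W_le (H : Fr 𝕜 p o nr) {h : M → ℝ} {K B R : ℝ} (G : Good o h K B R) (c : M →₀ 𝕜) :
    nr (W 𝕜 h c) ≤ ((K * R) ^ p + B ^ p) * nr c :=
  H.max (fun c => nr (W 𝕜 h c)) _
    (add_nonneg (Real.rpow_nonneg (mul_nonneg G.hK G.hR) _) (Real.rpow_nonneg G.hB _))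
    (H.sn.comp _) (H.W_base h) (H.atom_le G) c

lemma sum_le_one {A : ℝ} (hA : 0 ≤ A) (P : ℕ → Prop) [DecidablePred P]
    (hP : ∀ n m, n < m → P n → P m → False) (F : Finset ℕ) :
    ∑ n ∈ F, (if P n then A else 0) ≤ A := by
  rw [← Finset.sum_filter, Finset.sum_const, nsmul_eq_mul]
  have : (F.filter P).card ≤ 1 := Finset.card_le_one.mpr (fun a ha b hb => by
    have ha' := (Finset.mem_filter.mp ha).2
    have hb' := (Finset.mem_filter.mp hb).2
    rcases lt_trichotomy a b with h | h | h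
    · exact (hP a b h ha' hb').elim
    · exact h
    · exact (hP b a h hb' ha').elim)
  have h1 : ((F.filter P).card : ℝ) ≤ 1 := by exact_mod_cast this
  nlinarith

lemma Fr.disj (H : Fr 𝕜 p o nr) (g : ℕ → M → ℝ) {C B s : ℝ} (hC : 0 < C) (hs : 0 < s)
    (hd : ∀ x n m, n < m → g n x ≠ 0 → g m x ≠ 0 → False)
    (hg : ∀ n x y, nr (W 𝕜 (g n) (single x 1 - single y 1)) ≤ C * dist x y ^ p)
    (c : ℕ → M →₀ 𝕜) (hB : ∀ n, nr (c n) ≤ B) (hl : ∀ n, s ≤ nr (W 𝕜 (g n) (c n))) :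
    HasLp 𝕜 p nr c := by
  classical
  refine ellp (q := fun n v => nr (W 𝕜 (g n) v)) (fun n => H.sn.comp _) (C := 2 * C)
    (by positivity) hs (fun F => ?_) c hB hl
  refine H.max _ _ (by positivity) (SN.finsum H.sn.hp F (fun n => H.sn.comp _))
    (by simp [H.W_base]) (fun x y => ?_)
  have hA : 0 ≤ C * dist x y ^ p := by positivity
  have h1 := sum_le_one hA (fun n => g n x ≠ 0) (hd x) F
  have h2 := sum_le_one hA (fun n => g n y ≠ 0) (hd y) F
  refine le_trans (Finset.sum_le_sum (g := fun n => (if g n x ≠ 0 then C * dist x y ^ p else 0) +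
    (if g n y ≠ 0 then C * dist x y ^ p else 0)) (fun n _ => ?_)) ?_
  · have := hg n x y
    by_cases hx : g n x = 0
    · by_cases hy : g n y = 0
      · rw [map_sub, W_single, W_single, hx, hy]; simp [H.sn.zero]
      · simp only [hx, hy, ne_eq, not_true_eq_false, not_false_eq_true, if_true, if_false]
        linarith
    · simp only [hx, ne_eq, not_false_eq_true, if_true]
      split_ifs <;> linarith
  · rw [Finset.sum_add_distrib]; linarith

end Pool.Agent.H.MP_1a7c10_an
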