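import Pool.Agent.H.MP_1a7c10_an.F
set_option autoImplicit false

namespace Pool.Agent.H.MP_1a7c10_an
open Set Metric Filter Topology Finsupp
open Pool.Agent.H.MP_259edd_an (clamp clamp_lip clamp_nonneg clamp_le_one clamp_abs clamp_one
  clamp_zero Good)

universe u

variable {𝕜 : Type} [RCLike 𝕜] {p : ℝ} {M : Type u} [MetricSpace M] {o : M}
  {nr : (M →₀ 𝕜) → ℝ}

noncomputable def hR (o : M) (R : ℝ) (x : M) : ℝ := clamp (2 - dist x o / R)

lemma hR_good (o : M) {R : ℝ} (hR0 : 0 < R) : Good o (hR o R) (1 / R) 1 (2 * R) where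
  hK := by positivity
  hB := zero_le_one
  hR := by positivity
  lip x y := by
    refine (clamp_lip _ _).trans ?_
    have e : 2 - dist x o / R - (2 - dist y o / R) = (1 / R) * (dist y o - dist x o) := by ring
    rw [e, abs_mul, abs_of_pos (by positivity : (0:ℝ) < 1 / R)]
    refine mul_le_mul_of_nonneg_left ?_ (by positivity)
    rw [dist_comm x y]; exact abs_dist_sub_le _ _ _
  bd x := clamp_abs _
  supp x hx := clamp_zero (by
    have : 2 ≤ dist x o / R := by rw [le_div_iff₀ hR0]; exact hx.le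
    linarith)

lemma hR_one (o : M) {R : ℝ} (hR0 : 0 < R) {x : M} (hx : dist x o ≤ R) : hR o R x = 1 :=
  clamp_one (by
    have : dist x o / R ≤ 1 := by rw [div_le_one hR0]; exact hx
    linarith)

lemma hR_zero (o : M) {R : ℝ} (hR0 : 0 < R) {x : M} (hx : 2 * R ≤ dist x o) : hR o R x = 0 :=
  clamp_zero (by
    have : 2 ≤ dist x o / R := by rw [le_div_iff₀ hR0]; exact hx
    linarith)

lemma Fr.tight_core (H : Fr 𝕜 p o nr) (Rel : ℕ → (M →₀ 𝕜) → Prop) {B s : ℝ} (hs : 0 < s)
    (hB : ∀ n c, Rel n c → nr c ≤ B)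
    (hex : ∀ (n : ℕ) (R : ℝ), 0 < R → ∃ c, Rel n c ∧ s ≤ nr (c - W 𝕜 (hR o R) c)) :
    ∃ c : ℕ → M →₀ 𝕜, (∀ n, Rel n (c n)) ∧ HasLp 𝕜 p nr c := by
  choose! f hf1 hf2 using hex
  let rad : (M →₀ 𝕜) → ℝ := fun c => ∑ x ∈ c.support, dist x o
  have rad0 : ∀ c, 0 ≤ rad c := fun c => Finset.sum_nonneg (fun _ _ => dist_nonneg)
  have rad1 : ∀ c, ∀ x ∈ c.support, dist x o ≤ rad c := fun c x hx =>
    Finset.single_le_sum (f := fun x => dist x o) (fun _ _ => dist_nonneg) hx
  let R : ℕ → ℝ := fun n => Nat.rec 1 (fun n r => 2 * (r + rad (f n r))) n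
  have Rs : ∀ n, R (n + 1) = 2 * (R n + rad (f n (R n))) := fun n => rfl
  have R0 : ∀ n, 0 < R n := by
    intro n
    induction n with
    | zero => exact one_pos
    | succ n ih => rw [Rs]; have := rad0 (f n (R n)); positivity
  have Rm : Monotone R := monotone_nat_of_le_succ (fun n => by
    rw [Rs]; have := rad0 (f n (R n)); have := R0 n; linarith)
  refine ⟨fun n => f n (R n), fun n => hf1 n _ (R0 n), ?_⟩
  have R'0 : ∀ n, 0 < R n + rad (f n (R n)) := fun n => by
    have := rad0 (f n (R n)); have := R0 n; linarith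
  refine H.disj (fun n x => hR o (R n + rad (f n (R n))) x - hR o (R n) x)
    (C := 2 * (2 ^ p + 1)) (B := B) (by positivity) hs ?_ ?_ _ (fun n => hB n _ (hf1 n _ (R0 n))) ?_
  · intro x n m hnm h1 h2
    have a1 : dist x o < R (n + 1) := by
      by_contra h
      apply h1
      have := rad0 (f n (R n))
      rw [Rs, not_lt] at h
      rw [hR_zero o (R'0 n) h, hR_zero o (R0 n) (by linarith), sub_self]
    have a2 : R m < dist x o := by
      by_contra h
      apply h2
      have := rad0 (f m (R m))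
      rw [not_lt] at h
      rw [hR_one o (R'0 m) (by linarith), hR_one o (R0 m) h, sub_self]
    have := Rm (Nat.succ_le_of_lt hnm)
    linarith
  · intro n x y
    rw [W_sub]
    refine (H.sn.sub _ _).trans ?_
    have a1 := H.atom_le (hR_good o (R'0 n)) x y
    have a2 := H.atom_le (hR_good o (R0 n)) x y
    have e : ∀ r : ℝ, 0 < r → 1 / r * (2 * r) = 2 := fun r hr => by field_simp
    rw [e _ (R'0 n), Real.one_rpow] at a1
    rw [e _ (R0 n), Real.one_rpow] at a2
    linarith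
  · intro n
    rw [W_sub, W_one _ (fun x hx => hR_one o (R'0 n) (by
      have := rad1 _ x hx; have := R0 n; linarith))]
    exact hf2 n _ (R0 n)

noncomputable def rho (o : M) (E : Finset M) (x : M) : ℝ := infDist x (insert o (E : Set M))

lemma rho_lip (o : M) (E : Finset M) (x y : M) : |rho o E x - rho o E y| ≤ dist x y := by
  have h1 := infDist_le_infDist_add_dist (x := x) (y := y) (s := insert o (E : Set M))
  have h2 := infDist_le_infDist_add_dist (x := y) (y := x) (s := insert o (E : Set M))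
  rw [dist_comm y x] at h2
  unfold rho
  rw [abs_le]; constructor <;> linarith

lemma rho_mono (o : M) {E E' : Finset M} (h : E ⊆ E') (x : M) : rho o E' x ≤ rho o E x :=
  infDist_le_infDist_of_subset (insert_subset_insert (by exact_mod_cast h)) (insert_nonempty _ _)

lemma rho_zero (o : M) {E : Finset M} {x : M} (h : x ∈ E) : rho o E x = 0 :=
  infDist_zero_of_mem (mem_insert_of_mem _ h)

noncomputable def aE (o : M) (r : ℝ) (E : Finset M) (x : M) : ℝ := clamp (rho o E x / r - 1)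

lemma aE_lip (o : M) {r : ℝ} (hr : 0 < r) (E : Finset M) (x y : M) :
    |aE o r E x - aE o r E y| ≤ (1 / r) * dist x y := by
  refine (clamp_lip _ _).trans ?_
  have e : rho o E x / r - 1 - (rho o E y / r - 1) = (1 / r) * (rho o E x - rho o E y) := by ring
  rw [e, abs_mul, abs_of_pos (by positivity : (0:ℝ) < 1 / r)]
  exact mul_le_mul_of_nonneg_left (rho_lip o E x y) (by positivity)

lemma aE_one (o : M) {r : ℝ} (hr : 0 < r) {E : Finset M} {x : M} (h : 2 * r ≤ rho o E x) :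
    aE o r E x = 1 :=
  clamp_one (by
    have : 2 ≤ rho o E x / r := by rw [le_div_iff₀ hr]; exact h
    linarith)

lemma aE_zero (o : M) {r : ℝ} (hr : 0 < r) {E : Finset M} {x : M} (h : rho o E x ≤ r) :
    aE o r E x = 0 :=
  clamp_zero (by
    have : rho o E x / r ≤ 1 := by rw [div_le_one hr]; exact h
    linarith)

lemma Fr.kalton_core (H : Fr 𝕜 p o nr) (Rel : ℕ → (M →₀ 𝕜) → Prop) {B s r K R : ℝ} (hs : 0 < s)
    (hr : 0 < r) {h : M → ℝ} (G : Good o h K 1 R) (hB : ∀ n c, Rel n c → nr c ≤ B)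
    (hex : ∀ (n : ℕ) (E : Finset M), ∃ c, Rel n c ∧
      s ≤ nr (W 𝕜 (fun x => h x * aE o r E x) c)) :
    ∃ c : ℕ → M →₀ 𝕜, (∀ n, Rel n (c n)) ∧ HasLp 𝕜 p nr c := by
  classical
  choose f hf1 hf2 using hex
  let E : ℕ → Finset M := fun n => Nat.rec ∅ (fun n e => e ∪ (f n e).support) n
  have Es : ∀ n, E (n + 1) = E n ∪ (f n (E n)).support := fun n => rfl
  have Em : Monotone E := monotone_nat_of_le_succ (fun n => by
    rw [Es]; exact Finset.subset_union_left)
  refine ⟨fun n => f n (E n), fun n => hf1 n _, ?_⟩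
  let b : Finset M → M → ℝ := fun e x => clamp (1 - rho o e x / r)
  have blip : ∀ e x y, |b e x - b e y| ≤ (1 / r) * dist x y := by
    intro e x y
    refine (clamp_lip _ _).trans ?_
    have e' : 1 - rho o e x / r - (1 - rho o e y / r) = (1 / r) * (rho o e y - rho o e x) := by
      ring
    rw [e', abs_mul, abs_of_pos (by positivity : (0:ℝ) < 1 / r), dist_comm]
    exact mul_le_mul_of_nonneg_left (rho_lip o e y x) (by positivity)
  have G2 : ∀ n, Good o (fun x => (h x * aE o r (E n) x) * b (E (n + 1)) x)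
      (K + 1 * (1 / r) + 1 * (1 / r)) 1 R := fun n =>
    (G.mul (by positivity) (aE_lip o hr (E n)) (fun x => clamp_abs _)).mul (by positivity)
      (blip _) (fun x => clamp_abs _)
  have hpos : 0 < ((K + 1 * (1 / r) + 1 * (1 / r)) * R) ^ p + 1 ^ p := by
    have := Real.rpow_nonneg (mul_nonneg (G2 0).hK G.hR) p
    rw [Real.one_rpow]; linarith
  refine H.disj (fun n x => (h x * aE o r (E n) x) * b (E (n + 1)) x) (B := B) hpos hs ?_
    (fun n => H.atom_le (G2 n)) _ (fun n => hB n _ (hf1 n _)) ?_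
  · intro x n m hnm h1 h2
    have a1 : rho o (E (n + 1)) x < r := by
      by_contra h'
      apply h1
      have : b (E (n + 1)) x = 0 := clamp_zero (by
        have : 1 ≤ rho o (E (n + 1)) x / r := by rw [le_div_iff₀ hr]; linarith
        linarith)
      simp [this]
    have a2 : r < rho o (E m) x := by
      by_contra h'
      apply h2
      simp [aE_zero o hr (not_lt.mp h')]
    have := rho_mono o (Em (Nat.succ_le_of_lt hnm)) x
    linarith
  · intro n
    rw [W_congr _ (g := fun x => h x * aE o r (E n) x) (fun x hx => by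
      have : b (E (n + 1)) x = 1 := clamp_one (by
        rw [rho_zero o (by rw [Es]; exact Finset.mem_union_right _ hx)]; simp)
      simp [this])]
    exact hf2 n _

variable {X : Type u} [NormedAddCommGroup X] [Module 𝕜 X]

omit [MetricSpace M] in
lemma perturb (hom : ∀ (t : 𝕜) (u : X), ‖t • u‖ = ‖t‖ ^ p * ‖u‖) (L : (M →₀ 𝕜) →ₗ[𝕜] X)
    (A : Set X) (c : ℕ → M →₀ 𝕜) (hc : ∀ n : ℕ, ∃ w ∈ A, ‖w - L (c n)‖ ≤ 1 / ((n:ℝ) + 1))
    (hL : HasLp 𝕜 p (fun v => ‖L v‖) c) :
    ∃ x : ℕ → X, (∀ n, x n ∈ A) ∧ ∃ κ > 0, ∀ (F : Finset ℕ) (a : ℕ → 𝕜),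
      κ * ∑ n ∈ F, ‖a n‖ ^ p ≤ ‖∑ n ∈ F, a n • x n‖ := by
  choose w hw1 hw2 using hc
  obtain ⟨κ, hκ, hL⟩ := hL
  obtain ⟨n1, hn1⟩ := exists_nat_one_div_lt (K := ℝ) (ε := κ / 2) (by positivity)
  obtain ⟨φ, h1, h2⟩ := hL n1
  refine ⟨fun n => w (φ n), fun n => hw1 _, κ / 2, by positivity, fun F a => ?_⟩
  have a1 := h2 F a
  have e : L (∑ n ∈ F, a n • c (φ n))
      = ∑ n ∈ F, a n • w (φ n) - ∑ n ∈ F, a n • (w (φ n) - L (c (φ n))) := by
    rw [map_sum, ← Finset.sum_sub_distrib]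
    refine Finset.sum_congr rfl (fun n _ => ?_)
    rw [map_smul, smul_sub]; abel
  simp only [e] at a1
  have a2 := norm_sub_le (∑ n ∈ F, a n • w (φ n)) (∑ n ∈ F, a n • (w (φ n) - L (c (φ n))))
  have a3 : ‖∑ n ∈ F, a n • (w (φ n) - L (c (φ n)))‖ ≤ ∑ n ∈ F, ‖a n‖ ^ p * (κ / 2) := by
    refine (norm_sum_le _ _).trans (Finset.sum_le_sum (fun n _ => ?_))
    rw [hom]
    refine mul_le_mul_of_nonneg_left ((hw2 _).trans (le_trans ?_ hn1.le)) (by positivity)
    exact Nat.one_div_le_one_div (h1 n)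
  rw [← Finset.sum_mul] at a3
  linarith

lemma CtxK.approx {δ : M → X} (c : CtxK 𝕜 p o δ) (w : X) {η : ℝ} (hη : 0 < η) :
    ∃ v : M →₀ 𝕜, ‖w - linearCombination 𝕜 δ v‖ < η := by
  obtain ⟨u, hu, hd⟩ := Metric.mem_closure_iff.mp (c.dense w) η hη
  rw [SetLike.mem_coe, ← range_linearCombination] at hu
  obtain ⟨v, rfl⟩ := hu
  exact ⟨v, by rwa [← dist_eq_norm]⟩

theorem CtxK.kalton {δ : M → X} (c : CtxK 𝕜 p o δ) {R : ℝ} (hR : ∀ x, dist x o ≤ R)
    (A : Set X) {B s r : ℝ} (hB : ∀ w ∈ A, ‖w‖ ≤ B) (hs : 0 < s) (hr : 0 < r)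
    (hex : ∀ E : Finset M, ∃ w ∈ A, ∀ y ∈ Submodule.span 𝕜 (δ '' {x | ∃ e ∈ E, dist x e ≤ r}),
      s ≤ ‖w - y‖) :
    ∃ x : ℕ → X, (∀ n, x n ∈ A) ∧ ∃ κ > 0, ∀ (F : Finset ℕ) (a : ℕ → 𝕜),
      κ * ∑ n ∈ F, ‖a n‖ ^ p ≤ ‖∑ n ∈ F, a n • x n‖ := by
  classical
  have R0 : 0 ≤ R := by simpa using hR o
  have G : Good o (fun _ => 1) 0 1 R :=
    ⟨le_rfl, zero_le_one, R0, by simp, by simp, fun x hx => absurd (hR x) (not_le.mpr hx)⟩
  obtain ⟨v, h1, h2⟩ := c.fr.kalton_core
    (fun n v => ∃ w ∈ A, ‖w - linearCombination 𝕜 δ v‖ ≤ 1 / ((n:ℝ) + 1)) (B := B + 1)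
    (s := s / 2) (r := r / 2) (by positivity) (by positivity) G (by
      rintro n v ⟨w, hw, hv⟩
      have a1 := hB w hw
      have a2 : 1 / ((n:ℝ) + 1) ≤ 1 := by
        rw [div_le_one (by positivity)]; have := n.cast_nonneg (α := ℝ); linarith
      have a3 := norm_sub_le w (w - linearCombination 𝕜 δ v)
      rw [sub_sub_cancel] at a3
      linarith) (by
      intro n E
      obtain ⟨w, hw, hy⟩ := hex (insert o E)
      obtain ⟨v, hv⟩ := c.approx w (η := min (1 / ((n:ℝ) + 1)) (s / 2)) (by positivity)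
      refine ⟨v, ⟨w, hw, hv.le.trans (min_le_left _ _)⟩, ?_⟩
      have a1 := hy (linearCombination 𝕜 δ (W 𝕜 (fun x => 1 - 1 * aE o (r / 2) E x) v)) (by
        rw [span_image_eq_map_linearCombination]
        apply Submodule.mem_map_of_mem
        rw [mem_supported']
        intro x hx
        rw [W_apply, aE_one o (by positivity)]
        · simp
        · unfold rho
          rw [le_infDist (insert_nonempty _ _)]
          intro e he
          by_contra hlt
          exact hx ⟨e, by simpa using he, by linarith⟩)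
      rw [W_sub (fun _ => 1), W_one v (fun _ _ => rfl), map_sub] at a1
      have a2 := hv.le.trans (min_le_right _ _)
      have e : w - (linearCombination 𝕜 δ v
          - linearCombination 𝕜 δ (W 𝕜 (fun x => 1 * aE o (r / 2) E x) v))
          = (w - linearCombination 𝕜 δ v)
          + linearCombination 𝕜 δ (W 𝕜 (fun x => 1 * aE o (r / 2) E x) v) := by abel
      rw [e] at a1
      have a3 := a1.trans (norm_add_le _ _)
      linarith)
  exact perturb c.hom _ A v h1 h2

end Pool.Agent.H.MP_1a7c10_an
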