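import Pool.Agent.H.MP_1a7c10_an.Defs
set_option autoImplicit false

namespace Pool.Agent.H.MP_1a7c10_an
open Set

universe u

structure CtxK (𝕜 : Type) [RCLike 𝕜] (p : ℝ) {M : Type u} [MetricSpace M] (o : M) {X : Type u}
    [NormedAddCommGroup X] [Module 𝕜 X] (δ : M → X) : Prop where
  hp : 0 < p
  hom : ∀ (t : 𝕜) (u : X), ‖t • u‖ = ‖t‖ ^ p * ‖u‖
  h0 : δ o = 0
  iso : ∀ x y, ‖δ x - δ y‖ = dist x y ^ p
  dense : Dense ((Submodule.span 𝕜 (range δ) : Submodule 𝕜 X) : Set X)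
  univ : ∀ (Y : Type u) [NormedAddCommGroup Y] [Module 𝕜 Y] [CompleteSpace Y],
    (∀ (t : 𝕜) (u : Y), ‖t • u‖ = ‖t‖ ^ p * ‖u‖) → ∀ (f : M → Y) (C : ℝ), 0 ≤ C → f o = 0 →
    (∀ x y, ‖f x - f y‖ ≤ C * dist x y ^ p) →
    ∃ T : X →ₗ[𝕜] Y, (∀ x, T (δ x) = f x) ∧ ∀ u, ‖T u‖ ≤ C * ‖u‖

section
variable {p : ℝ}

lemma lt1 (hp0 : 0 < p) {a ε : ℝ} (ha : 0 ≤ a) (hε : 0 < ε) : a ^ p < ε ^ p ↔ a < ε :=
  Real.rpow_lt_rpow_iff ha hε.le hp0

lemma inv1 (hp0 : 0 < p) {a : ℝ} (ha : 0 ≤ a) : (a ^ (1 / p)) ^ p = a := by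
  rw [← Real.rpow_mul ha, one_div_mul_cancel hp0.ne', Real.rpow_one]

lemma inv2 (hp0 : 0 < p) {a : ℝ} (ha : 0 ≤ a) : (a ^ p) ^ (1 / p) = a := by
  rw [← Real.rpow_mul ha, mul_one_div_cancel hp0.ne', Real.rpow_one]

lemma lt2 (hp0 : 0 < p) {a ε : ℝ} (ha : 0 ≤ a) (hε : 0 < ε) : a ^ p < ε ↔ a < ε ^ (1 / p) := by
  rw [← lt1 hp0 ha (by positivity : 0 < ε ^ (1 / p)), inv1 hp0 hε.le]

lemma lt3 (hp0 : 0 < p) {a ε : ℝ} (ha : 0 ≤ a) (hε : 0 < ε) : a ^ (1 / p) < ε ↔ a < ε ^ p := by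
  rw [← lt1 hp0 (by positivity : 0 ≤ a ^ (1 / p)) hε, inv1 hp0 ha]

lemma le1 (hp0 : 0 < p) {a b : ℝ} (ha : 0 ≤ a) (hb : 0 ≤ b) : a ^ p ≤ b ^ p ↔ a ≤ b :=
  Real.rpow_le_rpow_iff ha hb hp0

end

variable {𝕜 : Type} [RCLike 𝕜] {p : ℝ} {M : Type u} [MetricSpace M] {o : M} {X : Type u}
  [AddCommGroup X] [Module 𝕜 X] {N : X → ℝ} {δ : M → X}

lemma IsPBanach.zero (hB : IsPBanach 𝕜 p X N) : N 0 = 0 := by simpa using hB.smul 0 0

@[reducible] noncomputable def IsPBanach.ng (hB : IsPBanach 𝕜 p X N) (hp0 : 0 < p) :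
    NormedAddCommGroup X :=
  AddGroupNorm.toNormedAddCommGroup
    { toFun := fun x => N x ^ p
      map_zero' := by simp [hB.zero, Real.zero_rpow hp0.ne']
      add_le' := hB.tri
      neg' := fun x => by
        have := hB.smul (-1) x
        simp only [neg_smul, one_smul, norm_neg, norm_one, one_mul] at this
        simp [this]
      eq_zero_of_map_eq_zero' := fun x hx =>
        hB.eq_zero x ((Real.rpow_eq_zero (hB.nonneg x) hp0.ne').mp hx) }

lemma IsPBanach.norm_eq (hB : IsPBanach 𝕜 p X N) (hp0 : 0 < p) (x : X) :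
    letI := hB.ng hp0; ‖x‖ = N x ^ p := rfl

lemma IsPBanach.cs (hB : IsPBanach 𝕜 p X N) (hp0 : 0 < p) :
    letI := hB.ng hp0; CompleteSpace X := by
  letI := hB.ng hp0
  have hn : ∀ x : X, ‖x‖ = N x ^ p := fun _ => rfl
  refine Metric.complete_of_cauchySeq_tendsto (fun w hw => ?_)
  obtain ⟨x, hx⟩ := hB.complete w (fun ε hε => by
    obtain ⟨k, hk⟩ := Metric.cauchySeq_iff.mp hw (ε ^ p) (by positivity)
    refine ⟨k, fun m hm n hn' => ?_⟩
    have := hk m hm n hn'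
    rwa [dist_eq_norm, hn, lt1 hp0 (hB.nonneg _) hε] at this)
  refine ⟨x, Metric.tendsto_atTop.mpr (fun ε hε => ?_)⟩
  obtain ⟨k, hk⟩ := hx (ε ^ (1 / p)) (by positivity)
  exact ⟨k, fun n hn' => by rw [dist_eq_norm, hn, lt2 hp0 (hB.nonneg _) hε]; exact hk n hn'⟩

lemma IsPBanach.cspan_eq (hB : IsPBanach 𝕜 p X N) (hp0 : 0 < p) (δ : M → X) (S : Set M) :
    letI := hB.ng hp0
    cspan 𝕜 N δ S = closure ((Submodule.span 𝕜 (δ '' S) : Submodule 𝕜 X) : Set X) := by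
  letI := hB.ng hp0
  have hn : ∀ x : X, ‖x‖ = N x ^ p := fun _ => rfl
  ext x
  rw [Metric.mem_closure_iff]
  constructor
  · intro h ε hε
    obtain ⟨y, hy, hxy⟩ := h (ε ^ (1 / p)) (by positivity)
    exact ⟨y, hy, by rw [dist_eq_norm, hn, lt2 hp0 (hB.nonneg _) hε]; exact hxy⟩
  · intro h ε hε
    obtain ⟨y, hy, hxy⟩ := h (ε ^ p) (by positivity)
    exact ⟨y, hy, by rwa [dist_eq_norm, hn, lt1 hp0 (hB.nonneg _) hε] at hxy⟩

lemma isPBanach_of_normed (hp0 : 0 < p) (Y : Type u) [NormedAddCommGroup Y] [Module 𝕜 Y]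
    [CompleteSpace Y] (hY : ∀ (t : 𝕜) (u : Y), ‖t • u‖ = ‖t‖ ^ p * ‖u‖) :
    IsPBanach 𝕜 p Y (fun y => ‖y‖ ^ (1 / p)) :=
  { nonneg := fun y => by positivity
    eq_zero := fun y hy =>
      norm_eq_zero.mp ((Real.rpow_eq_zero (norm_nonneg y) (by positivity)).mp hy)
    smul := fun t y => by
      rw [hY, Real.mul_rpow (by positivity) (norm_nonneg _), inv2 hp0 (norm_nonneg t)]
    tri := fun x y => by
      rw [inv1 hp0 (norm_nonneg _), inv1 hp0 (norm_nonneg _), inv1 hp0 (norm_nonneg _)]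
      exact norm_add_le _ _
    complete := fun w hw => by
      have : CauchySeq w := Metric.cauchySeq_iff.mpr (fun ε hε => by
        obtain ⟨k, hk⟩ := hw (ε ^ (1 / p)) (by positivity)
        refine ⟨k, fun m hm n hn' => ?_⟩
        have := hk m hm n hn'
        rw [Real.rpow_lt_rpow_iff (norm_nonneg _) hε.le (by positivity)] at this
        rwa [dist_eq_norm])
      obtain ⟨x, hx⟩ := cauchySeq_tendsto_of_complete this
      refine ⟨x, fun ε hε => ?_⟩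
      obtain ⟨k, hk⟩ := Metric.tendsto_atTop.mp hx (ε ^ p) (by positivity)
      refine ⟨k, fun n hn' => ?_⟩
      rw [lt3 hp0 (norm_nonneg _) hε, ← dist_eq_norm]
      exact hk n hn' }

lemma IsFree.ctx (hF : IsFree 𝕜 p o X N δ) (hp0 : 0 < p) :
    letI := hF.banach.ng hp0; CtxK 𝕜 p o δ := by
  letI := hF.banach.ng hp0
  have hB := hF.banach
  have hn : ∀ x : X, ‖x‖ = N x ^ p := fun _ => rfl
  exact
    { hp := hp0
      hom := fun t x => by rw [hn, hn, hB.smul, Real.mul_rpow (norm_nonneg _) (hB.nonneg _)]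
      h0 := hF.base
      iso := fun x y => by rw [hn, hF.isom]
      dense := fun x => by
        have := hF.dense x
        rwa [hB.cspan_eq hp0, image_univ] at this
      univ := by
        intro Y _ _ _ hY f C hC hf0 hf
        obtain ⟨T, hT, hb⟩ := hF.lift Y _ (isPBanach_of_normed hp0 Y hY) f (C ^ (1 / p))
          (by positivity) hf0 (fun x y => by
          have := Real.rpow_le_rpow (norm_nonneg _) (hf x y) (by positivity : 0 ≤ 1 / p)
          rwa [Real.mul_rpow hC (by positivity), inv2 hp0 dist_nonneg] at this)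
        refine ⟨T, hT, fun x => ?_⟩
        have := Real.rpow_le_rpow (by positivity) (hb x) hp0.le
        rwa [inv1 hp0 (norm_nonneg _), Real.mul_rpow (by positivity) (hB.nonneg _), inv1 hp0 hC,
          ← hn] at this }

lemma IsPBanach.equivLp (hB : IsPBanach 𝕜 p X N) (hp0 : 0 < p) (x : ℕ → X) (B κ : ℝ)
    (hκ : 0 < κ) (hb : ∀ n, N (x n) ≤ B)
    (hl : ∀ (s : Finset ℕ) (a : ℕ → 𝕜),
      κ * ∑ n ∈ s, ‖a n‖ ^ p ≤ N (∑ n ∈ s, a n • x n) ^ p) : EquivLp 𝕜 p N x := by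
  letI := hB.ng hp0
  have hn : ∀ x : X, ‖x‖ = N x ^ p := fun _ => rfl
  have hB0 : 0 ≤ B := (hB.nonneg _).trans (hb 0)
  refine ⟨κ ^ (1 / p), max (κ ^ (1 / p)) B, by positivity, le_max_left _ _, fun s a => ?_⟩
  have hS : 0 ≤ ∑ n ∈ s, ‖a n‖ ^ p := Finset.sum_nonneg (fun n _ => by positivity)
  constructor
  · rw [← le1 hp0 (by positivity) (hB.nonneg _), Real.mul_rpow (by positivity) (by positivity),
      inv1 hp0 hκ.le, inv1 hp0 hS]
    exact hl s a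
  · refine le_trans ?_ (mul_le_mul_of_nonneg_right (le_max_right _ B) (by positivity))
    rw [← le1 hp0 (hB.nonneg _) (by positivity), Real.mul_rpow hB0 (by positivity),
      inv1 hp0 hS, ← hn, Finset.mul_sum]
    refine (norm_sum_le _ _).trans (Finset.sum_le_sum (fun n _ => ?_))
    rw [hn, hB.smul, Real.mul_rpow (norm_nonneg _) (hB.nonneg _), mul_comm]
    exact mul_le_mul_of_nonneg_right (Real.rpow_le_rpow (hB.nonneg _) (hb n) hp0.le)
      (by positivity)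

end Pool.Agent.H.MP_1a7c10_an
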